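import Pool.Agent.MQG.StmtsB
import Pool.Agent.Helper59_MMU.GNS

/-!
# Row STU of squad MQG: a state is a coefficient of an adapted unitary
-/

set_option autoImplicit false

open scoped InnerProductSpace

namespace Pool.Agent.MQG.H81

open Pool.Agent.MQG

theorem stu (upu : UpuStmt) (upa : UpaStmt) : StuStmt := by
  intro ι M κ WW hU μ hμ
  obtain ⟨κ', π, ξ, hξ, hφ, hd⟩ := Pool.Agent.H59.GNS.gns' μ hμ.1 hμ.2
  have hnd : NonDeg π := by
    refine Dense.mono ?_ hd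
    rintro _ ⟨a, rfl⟩
    exact Submodule.subset_span ⟨a, ξ, rfl⟩
  obtain ⟨U, hU1, hU2⟩ := upu ι M κ WW hU.adapted κ' π hnd
  refine ⟨κ', U, ξ, upa ι κ κ' M.W WW U M.W_unitary hU.adapted π hU1 hU2, hξ, ?_⟩
  refine ContinuousLinearMap.ext fun y => ext_inner_left ℂ fun u => ?_
  rw [inner_lam, hφ, inner_co, ← inner_sl, hU2]

end Pool.Agent.MQG.H81
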